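import Pool.Agent.Y531.Smooth.Full
import Pool.Agent.Y531.Mul.Main

/-!
# Superpositions of differentiable functions do not compute matrix functions
-/

set_option autoImplicit false
set_option linter.unusedSectionVars false
set_option maxHeartbeats 1000000
set_option synthInstance.maxHeartbeats 200000

namespace Pool.Agent.Y531.Smooth

open MvPolynomial Pool.Agent.W942 Pool.Agent.Y531 Pool.Agent.Y531.Mul Pool.Agent.Y531.Hit
open MeasureTheory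

section cont
variable {σ : Type} [Fintype σ] {s m d : ℕ}

theorem Comb.contDiff (c : Comb σ s) {F : (σ → ℝ) → Fin s → ℝ}
    (hF : ∀ i, ContDiff ℝ d fun x => F x i) : ContDiff ℝ d fun x => c.val x (F x) := by
  have h1 : ∀ j : σ, ContDiff ℝ d fun x : σ → ℝ => x j := fun j => contDiff_apply ℝ ℝ j
  exact (contDiff_const.add (ContDiff.sum fun j _ => contDiff_const.mul (h1 j))).add
    (ContDiff.sum fun i _ => contDiff_const.mul (hF i))

theorem GOp.contDiff (g : GOp σ s m d) {F : (σ → ℝ) → Fin s → ℝ}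
    (hF : ∀ i, ContDiff ℝ d fun x => F x i) : ContDiff ℝ d fun x => g.val x (F x) := by
  cases g with
  | prod p le arg => exact contDiff_prod fun j _ => (arg j).contDiff hF
  | fn φ smooth arg =>
    exact smooth.comp (contDiff_pi.2 fun j => (arg j).contDiff hF)

theorem contDiff_rounds (g : Fin s → GOp σ s m d) : ∀ t i,
    ContDiff ℝ d fun x => rounds g t x i := by
  intro t
  induction t with
  | zero => intro i; exact contDiff_const
  | succ t ih => intro i; exact (g i).contDiff ih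

theorem ae_fine [Nonempty σ] (g : Fin s → GOp σ s m d) :
    ∀ᵐ x, ∀ t i, Fine (g i) (rounds g t) x := by
  rw [ae_all_iff]
  intro t
  rw [ae_all_iff]
  intro i
  cases hgi : g i with
  | prod p le arg =>
    have h1 : ∀ᵐ x, ∀ j : Fin p, (arg j).val x (rounds g t x) = 0 →
        PE d (fun z => (arg j).val z (rounds g t z)) x 0 := by
      rw [ae_all_iff]
      exact fun j => ae_flat d _ ((arg j).contDiff (contDiff_rounds g t))
    filter_upwards [h1] with x hx p' le' arg' heq j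
    cases heq
    by_cases h0 : (arg j).val x (rounds g t x) = 0
    · exact Or.inr (hx j h0)
    · exact Or.inl h0
  | fn φ smooth arg =>
    refine ae_of_all _ fun x p' le' arg' heq j => ?_
    cases heq

end cont

/-- **The thresholds.** -/
theorem smooth_bound (c Δ : ℕ) : ∃ d q₀ n₀ : ℕ, 2 ≤ d ∧ 1 ≤ n₀ ∧ ∀ n, n₀ ≤ n →
    ∀ χ : Equiv.Perm (Fin n) → ℝ,
    (∀ σ : Equiv.Perm (Fin n), σ.IsCycle → σ.support.card = d → χ σ ≠ 0) →
    ∃ D : MvPolynomial (Fin n × Fin n) ℝ, D ≠ 0 ∧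
    ∀ (s m : ℕ), s ≤ n ^ c → m ^ q₀ ≤ n →
    ∀ (x : Fin n × Fin n → ℝ), eval x D ≠ 0 →
    ∀ (g : Fin s → GOp (Fin n × Fin n) s m d), (∀ t i, Fine (g i) (rounds g t) x) →
    ∀ c₀ : Comb (Fin n × Fin n) s,
      ¬ PE d (fun z => c₀.val z (rounds g (Δ + 1) z) - eval z (FX χ)) x 0 := by
  classical
  set k := c + 2 with hk
  set w := k + 2 * k * (Δ + 1) + 2 with hw
  obtain ⟨a, b, T, ha, hb, hba, hT0, hTm, hTK, hsc⟩ := exists_thresholds (2 * Δ + 2) w 2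
  set d := a + b with hd
  have hd0 : 0 < d := by omega
  have hd2 : 2 ≤ d := by omega
  obtain ⟨e, he⟩ := exists_sort (ι := Fin b ⊕ Fin a) (d := a + b)
    (by rw [Fintype.card_sum, Fintype.card_fin, Fintype.card_fin, add_comm]) key (key_inj ha hb)
  set C₁ : ℕ := 3 * (6 ^ (Δ + 1) * 2 ^ (2 * d ^ 2 * (Δ + 1)) * 2 ^ (d * (Δ + 1))) with hC₁
  set C₂ : ℕ := d * 2 ^ a with hC₂
  refine ⟨d, d * (Δ + 1), C₂ ^ w * C₁ + C₂ + 1, hd2, by omega, ?_⟩
  intro n hn χ hχd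
  obtain ⟨hna, hnc, hn1⟩ : C₂ ^ w * C₁ < n ∧ C₂ < n ∧ 1 ≤ n := by
    have h1 : ∀ x z : ℕ, x + z + 1 ≤ n → x < n ∧ z < n ∧ 1 ≤ n := by
      intro x z hxz
      omega
    exact h1 _ _ hn
  set h := Nat.log (2 ^ a) (n / d) with hh
  have h2a : 1 < 2 ^ a := Nat.one_lt_pow (by omega) (by norm_num)
  have hC₂' : d ≤ C₂ := Nat.le_mul_of_pos_right _ (by positivity)
  have hnd : n / d ≠ 0 := by
    have : 0 < n / d := Nat.div_pos (by omega) hd0
    omega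
  have hlow : (2 ^ a) ^ h ≤ n / d := Nat.pow_log_le_self _ hnd
  have hup : n / d < (2 ^ a) ^ (h + 1) := Nat.lt_pow_succ_log_self h2a _
  have hcardle : Fintype.card (Vtx h e) ≤ Fintype.card (Fin n) := by
    rw [Fintype.card_fin]
    refine (card_vtx ha hb hba e he).trans ?_
    rw [← hd, pow_mul]
    exact (Nat.mul_le_mul_left _ hlow).trans (Nat.mul_div_le n d)
  obtain ⟨ν⟩ := Function.Embedding.nonempty_of_card_le hcardle
  have hnC : n < C₂ * 2 ^ (a * h) := by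
    rw [Nat.div_lt_iff_lt_mul hd0] at hup
    refine hup.trans_le (le_of_eq ?_)
    rw [pow_succ, ← pow_mul, hC₂]
    ring
  have hχ : ∀ u, χ (sig e ν ν.injective u) ≠ 0 := fun u =>
    hχd _ (sig_isCycle ν.injective hd2 u) (sig_card ν.injective hd2 u)
  obtain ⟨D, hD0, hD⟩ := exists_disc (l₀ := Sum.inr ⟨0, ha⟩) ν.injective hd2 χ hχ
  refine ⟨D, hD0, ?_⟩
  intro s m hs hm x hx g hg c₀ hc₀
  have hmain := smooth_rank (L := w) (T := T) hd2 hT0 hTm hTK (fun k hk => hsc h k hk)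
    ν.injective χ (hD x hx) g hg c₀ hc₀
  rw [← hd] at hmain
  -- the cost
  have hnR : (1:ℝ) ≤ n := by exact_mod_cast hn1
  have hnk : (1:ℝ) ≤ (n:ℝ) ^ k := one_le_pow₀ hnR
  have hnR2 : ((n * n : ℕ) : ℝ) ≤ (n:ℝ) ^ k := by
    push_cast
    rw [← sq]
    exact pow_le_pow_right₀ hnR (by omega)
  have hsR : (s:ℝ) ≤ (n:ℝ) ^ k := by
    have h1 : (s:ℝ) ≤ (n:ℝ) ^ c := by exact_mod_cast hs
    exact h1.trans (pow_le_pow_right₀ hnR (by omega))
  have hs' : (s : ℝ) + 1 ≤ 2 * (n:ℝ) ^ k := by linarith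
  have hns : ((n * n : ℕ) : ℝ) + s + 1 ≤ 3 * (n:ℝ) ^ k := by linarith
  have hs0 : (0:ℝ) ≤ s := Nat.cast_nonneg s
  have hm0 : (0:ℝ) ≤ m := Nat.cast_nonneg m
  have hn0 : (0:ℝ) ≤ ((n * n : ℕ) : ℝ) := Nat.cast_nonneg _
  have hm' : (((m : ℝ) + 1) ^ d) ^ (Δ + 1) ≤ 2 ^ (d * (Δ + 1)) * n := by
    rw [← pow_mul]
    by_cases hm0 : m = 0
    · rw [hm0, Nat.cast_zero, zero_add, one_pow]
      exact one_le_mul_of_one_le_of_one_le (one_le_pow₀ (by norm_num)) hnR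
    · have hm1 : (1:ℝ) ≤ m := by exact_mod_cast Nat.one_le_iff_ne_zero.2 hm0
      have h1 : (m : ℝ) + 1 ≤ 2 * m := by linarith
      have h2 : ((m:ℝ)) ^ (d * (Δ + 1)) ≤ n := by exact_mod_cast hm
      calc ((m : ℝ) + 1) ^ (d * (Δ + 1)) ≤ (2 * m) ^ (d * (Δ + 1)) := by gcongr
        _ = 2 ^ (d * (Δ + 1)) * (m:ℝ) ^ (d * (Δ + 1)) := mul_pow _ _ _
        _ ≤ _ := by gcongr
  have hcost : cost (n * n) s m d ^ (Δ + 1) ≤ 6 ^ (Δ + 1) * 2 ^ (2 * d ^ 2 * (Δ + 1)) *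
      2 ^ (d * (Δ + 1)) * ((n:ℝ) ^ (2 * k * (Δ + 1)) * n) := by
    have h1 : cost (n * n) s m d ^ (Δ + 1) =
        ((((n * n : ℕ) : ℝ) + s + 1) * ((s : ℝ) + 1)) ^ (Δ + 1) *
        2 ^ (2 * d ^ 2 * (Δ + 1)) * (((m : ℝ) + 1) ^ d) ^ (Δ + 1) := by
      rw [cost, pow_mul 2 (2 * d ^ 2) (Δ + 1), ← mul_pow, ← mul_pow]
      congr 1
      ring
    rw [h1]
    have h2 : ((((n * n : ℕ) : ℝ) + s + 1) * ((s : ℝ) + 1)) ^ (Δ + 1) ≤
        6 ^ (Δ + 1) * (n:ℝ) ^ (2 * k * (Δ + 1)) := by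
      have h3 : (((n * n : ℕ) : ℝ) + s + 1) * ((s : ℝ) + 1) ≤ 6 * (n:ℝ) ^ (2 * k) := by
        calc (((n * n : ℕ) : ℝ) + s + 1) * ((s : ℝ) + 1)
            ≤ (3 * (n:ℝ) ^ k) * (2 * (n:ℝ) ^ k) := by gcongr
          _ = _ := by ring
      refine (pow_le_pow_left₀ (by positivity) h3 (Δ + 1)).trans (le_of_eq ?_)
      rw [mul_pow, ← pow_mul]
    calc ((((n * n : ℕ) : ℝ) + s + 1) * ((s : ℝ) + 1)) ^ (Δ + 1) *
        2 ^ (2 * d ^ 2 * (Δ + 1)) * (((m : ℝ) + 1) ^ d) ^ (Δ + 1)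
        ≤ (6 ^ (Δ + 1) * (n:ℝ) ^ (2 * k * (Δ + 1))) *
        2 ^ (2 * d ^ 2 * (Δ + 1)) * (2 ^ (d * (Δ + 1)) * n) := by gcongr
      _ = _ := by ring
  have hRHS : (2:ℝ) ^ (a * h * w) ≤ C₁ * (n:ℝ) ^ (w - 1) := by
    refine hmain.trans ?_
    have h3 : w - 1 = k + (2 * k * (Δ + 1) + 1) := by omega
    have h4 : (n:ℝ) ^ (w - 1) = (n:ℝ) ^ k * ((n:ℝ) ^ (2 * k * (Δ + 1)) * n) := by
      rw [h3, pow_add, pow_add (n:ℝ) (2 * k * (Δ + 1)) 1, pow_one]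
    rw [h4, hC₁]
    have h6 : 0 ≤ cost (n * n) s m d := zero_le_one.trans (one_le_cost (n * n) s m d)
    have h7 : 0 ≤ cost (n * n) s m d ^ (Δ + 1) := by positivity
    have h8 : ((3 * (6 ^ (Δ + 1) *
        2 ^ (2 * d ^ 2 * (Δ + 1)) * 2 ^ (d * (Δ + 1))) : ℕ) : ℝ) = (3 * (6 ^ (Δ + 1) *
        2 ^ (2 * d ^ 2 * (Δ + 1)) * 2 ^ (d * (Δ + 1)))) := by push_cast; ring
    rw [h8]
    calc ((((n * n : ℕ):ℝ) + s + 1) * cost (n * n) s m d ^ (Δ + 1))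
        ≤ ((3 * (n:ℝ) ^ k) * (6 ^ (Δ + 1) *
          2 ^ (2 * d ^ 2 * (Δ + 1)) * 2 ^ (d * (Δ + 1)) *
          ((n:ℝ) ^ (2 * k * (Δ + 1)) * n))) := by
          gcongr
      _ = _ := by ring
  have hnR3 : (n:ℝ) < C₂ * (2:ℝ) ^ (a * h) := by exact_mod_cast hnC
  have hw0 : w ≠ 0 := by omega
  have hfin : (n:ℝ) ^ w < (C₂:ℝ) ^ w * C₁ * (n:ℝ) ^ (w - 1) := by
    calc (n:ℝ) ^ w < (C₂ * (2:ℝ) ^ (a * h)) ^ w :=
          pow_lt_pow_left₀ hnR3 (Nat.cast_nonneg n) hw0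
      _ = (C₂:ℝ) ^ w * 2 ^ (a * h * w) := by
          rw [mul_pow, ← pow_mul]
      _ ≤ (C₂:ℝ) ^ w * (C₁ * (n:ℝ) ^ (w - 1)) :=
          mul_le_mul_of_nonneg_left hRHS (by positivity)
      _ = _ := by ring
  have hfin2 : (n:ℝ) < (C₂:ℝ) ^ w * C₁ := by
    have h1 : (n:ℝ) ^ w = n * (n:ℝ) ^ (w - 1) := by
      rw [← pow_succ']; congr 1
    rw [h1] at hfin
    exact lt_of_mul_lt_mul_right hfin (by positivity)
  have hfin3 : n < C₂ ^ w * C₁ := by exact_mod_cast hfin2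
  exact absurd hfin3 (not_lt.2 hna.le)

/-- The zeros of a continuous function which form a null set form a meagre set. -/
theorem isMeagre_of_null {σ : Type} [Fintype σ] {f : (σ → ℝ) → ℝ} (hf : Continuous f)
    (h : ∀ᵐ x, f x ≠ 0) : IsMeagre {x | f x = 0} := by
  have hcl : IsClosed {x | f x = 0} := isClosed_singleton.preimage hf
  have h1 : interior {x | f x = 0} = ∅ := by
    have h2 : volume (interior {x | f x = 0}) = 0 := by
      refine measure_mono_null interior_subset ?_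
      have h3 := measure_eq_zero_iff_ae_notMem.2 h
      exact h3
    exact (isOpen_interior.measure_eq_zero_iff volume).1 h2
  have h4 : IsNowhereDense {x | f x = 0} := by
    rw [hcl.isNowhereDense_iff]
    exact h1
  exact h4.isMeagre

/-- **Superpositions of differentiable functions do not compute matrix functions.** -/
theorem smooth_main (c Δ : ℕ) : ∃ d q₀ n₀ : ℕ, 2 ≤ d ∧ ∀ n, n₀ ≤ n →
    ∀ χ : Equiv.Perm (Fin n) → ℝ,
    (∀ σ : Equiv.Perm (Fin n), σ.IsCycle → σ.support.card = d → χ σ ≠ 0) →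
    ∀ (s m : ℕ), s ≤ n ^ c → m ^ q₀ ≤ n →
    ∀ P : Program (Fin n × Fin n) s Δ m d,
      volume {x : Fin n × Fin n → ℝ | P.Outputs x (∑ σ, χ σ * ∏ p, x (p, σ p))} = 0 ∧
      IsMeagre {x : Fin n × Fin n → ℝ | P.Outputs x (∑ σ, χ σ * ∏ p, x (p, σ p))} := by
  obtain ⟨d, q₀, n₀, hd, hn₀, hmain⟩ := smooth_bound c Δ
  refine ⟨d, q₀, n₀, hd, ?_⟩
  intro n hn χ hχ s m hs hm P
  obtain ⟨D, hD0, hD⟩ := hmain n hn χ hχ
  have : Nonempty (Fin n × Fin n) := ⟨⟨⟨0, by omega⟩, ⟨0, by omega⟩⟩⟩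
  have hFX : ∀ x, eval x (FX χ) = ∑ σ, χ σ * ∏ p, x (p, σ p) := by
    intro x
    rw [FX, map_sum]
    refine Finset.sum_congr rfl fun σ _ => ?_
    rw [map_mul, eval_C, map_prod]
    simp only [eval_X]
  obtain ⟨S, hS, hS'⟩ := P.exists_rounds
  set f : ((Fin s → GOp (Fin n × Fin n) s m d) × Comb (Fin n × Fin n) s) →
    (Fin n × Fin n → ℝ) → ℝ := fun p x => p.2.val x (rounds p.1 (Δ + 1) x) - eval x (FX χ)
    with hf
  have hfc : ∀ p, ContDiff ℝ d (f p) := fun p =>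
    (p.2.contDiff (contDiff_rounds p.1 (Δ + 1))).sub (contDiff_eval (FX χ))
  have h1 : ∀ p, ∀ᵐ x, f p x ≠ 0 := by
    intro p
    filter_upwards [ae_fine p.1, ae_flat d (f p) (hfc p), ae_eval_ne_zero hD0] with x h1 h2 h3 h0
    exact hD s m hs hm x h3 p.1 h1 p.2 (h2 h0)
  have hsub : {x : Fin n × Fin n → ℝ | P.Outputs x (∑ σ, χ σ * ∏ p, x (p, σ p))} ⊆
      ⋃ p ∈ S, {x | f p x = 0} := by
    intro x hx
    obtain ⟨p, hp, hp'⟩ := hS' x _ hx
    refine Set.mem_iUnion₂.2 ⟨p, hp, ?_⟩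
    show p.2.val x (rounds p.1 (Δ + 1) x) - eval x (FX χ) = 0
    rw [hFX, ← hp', sub_self]
  constructor
  · refine measure_mono_null hsub ?_
    rw [measure_biUnion_null_iff hS]
    intro p _
    exact measure_eq_zero_iff_ae_notMem.2 (h1 p)
  · exact (isMeagre_biUnion hS fun p _ => isMeagre_of_null (hfc p).continuous (h1 p)).mono hsub

end Pool.Agent.Y531.Smooth
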