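import Pool.Agent.Y531.Smooth.Peano

/-!
# Almost all zeros of a differentiable function are flat, and the uniqueness of Taylor polynomials
-/

set_option autoImplicit false
set_option linter.unusedSectionVars false

namespace Pool.Agent.Y531.Smooth

open MvPolynomial Asymptotics Filter Topology MeasureTheory

variable {σ : Type} [Fintype σ]

/-- At almost all zeros the derivative is zero. -/
theorem ae_fderiv_eq_zero [Nonempty σ] {f : (σ → ℝ) → ℝ} (hf : Differentiable ℝ f) :
    ∀ᵐ x, f x = 0 → fderiv ℝ f x = 0 := by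
  classical
  set s : Set (σ → ℝ) := {x | f x = 0} with hs
  have hsm : MeasurableSet s := (isClosed_singleton.preimage hf.continuous).measurableSet
  obtain ⟨j₀⟩ := (inferInstance : Nonempty σ)
  set w : σ → ℝ := Pi.single j₀ 1 with hw
  set F : (σ → ℝ) → σ → ℝ := fun x => f x • w with hF
  have h1 : ApproximatesLinearOn F (0 : (σ → ℝ) →L[ℝ] (σ → ℝ)) s 0 := by
    intro x hx y hy
    have hx' : f x = 0 := hx
    have hy' : f y = 0 := hy
    simp only [hF, hx', hy', zero_smul, sub_self, _root_.zero_apply, norm_zero]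
    positivity
  have h2 := h1.norm_fderiv_sub_le (μ := volume) hsm
    (fun x => (fderiv ℝ f x).smulRight w) (fun x _ =>
      ((hf x).hasFDerivAt.smul_const w).hasFDerivWithinAt)
  rw [ae_restrict_iff' hsm] at h2
  filter_upwards [h2] with x hx hx0
  have h3 := hx hx0
  have h4 : (fderiv ℝ f x).smulRight w = 0 := by
    rw [sub_zero] at h3
    have h5 : ‖(fderiv ℝ f x).smulRight w‖₊ = 0 := le_antisymm h3 bot_le
    exact nnnorm_eq_zero.1 h5
  ext v
  have h5 := congrFun (congrArg DFunLike.coe h4) v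
  have h6 := congrFun h5 j₀
  rw [ContinuousLinearMap.smulRight_apply, Pi.smul_apply, hw, Pi.single_eq_same, smul_eq_mul,
    mul_one] at h6
  exact h6

/-- **Almost all zeros are flat.** -/
theorem ae_flat [Nonempty σ] : ∀ (d : ℕ) (f : (σ → ℝ) → ℝ), ContDiff ℝ d f →
    ∀ᵐ x, f x = 0 → PE d f x 0 := by
  classical
  intro d
  induction d with
  | zero =>
    intro f hf
    refine ae_of_all _ fun x hx => ?_
    rw [PE]
    simp only [map_zero, sub_zero, pow_zero]
    rw [isLittleO_one_iff]
    have h1 : Tendsto (fun y : σ → ℝ => f (x + y)) (𝓝 0) (𝓝 (f (x + 0))) :=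
      (hf.continuous.comp (continuous_const.add continuous_id)).tendsto 0
    rwa [add_zero, hx] at h1
  | succ d ih =>
    intro f hf
    have hd : Differentiable ℝ f := hf.differentiable (by norm_cast)
    have h1 : ∀ᵐ x, ∀ j, pd j f x = 0 → PE d (pd j f) x 0 := by
      rw [ae_all_iff]
      exact fun j => ih (pd j f) (contDiff_pd hf j)
    filter_upwards [h1, ae_fderiv_eq_zero hd] with x hx1 hx2 hx0
    have h2 := PE.of_pd hd (Q := fun _ => 0) fun j => hx1 j (by rw [pd, hx2 hx0]; rfl)
    have h3 : (C (f x) + ∑ j : σ, X j * integ 0 : MvPolynomial σ ℝ) = 0 := by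
      rw [hx0, map_zero, zero_add]
      refine Finset.sum_eq_zero fun j _ => ?_
      rw [integ, support_zero, Finset.sum_empty, mul_zero]
    rwa [h3] at h2

/-- A polynomial in one variable which is small near `0`. -/
theorem coeff_eq_zero_of_isLittleO {d : ℕ} {q : Polynomial ℝ}
    (h : (fun t : ℝ => q.eval t) =o[𝓝 0] fun t => |t| ^ d) {k : ℕ} (hk : k ≤ d) :
    q.coeff k = 0 := by
  by_cases hq : q = 0
  · rw [hq, Polynomial.coeff_zero]
  obtain ⟨r, hr, hrn⟩ := Polynomial.exists_eq_pow_rootMultiplicity_mul_and_not_dvd q hq 0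
  set m := q.rootMultiplicity 0 with hm
  rw [map_zero, sub_zero] at hr hrn
  have hr0 : r.eval 0 ≠ 0 := by
    intro h0
    exact hrn (Polynomial.X_dvd_iff.2 (by rwa [Polynomial.coeff_zero_eq_eval_zero]))
  have hdm : d < m := by
    by_contra hcon
    push Not at hcon
    have h1 : (fun t : ℝ => t ^ m * r.eval t) =o[𝓝 0] fun t => |t| ^ d := by
      refine h.congr_left fun t => ?_
      conv_lhs => rw [hr]
      rw [Polynomial.eval_mul, Polynomial.eval_pow, Polynomial.eval_X]
    have h2 : (fun t : ℝ => |t| ^ d) =O[𝓝 0] fun t => t ^ m * (1 : ℝ) := by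
      have h3 : (fun t : ℝ => |t| ^ (d - m)) =O[𝓝 0] fun _ => (1 : ℝ) :=
        ((continuous_abs.pow (d - m)).tendsto 0).isBigO_one ℝ
      have h4 := (isBigO_refl (fun t : ℝ => t ^ m) (𝓝 0)).norm_left.mul h3
      refine h4.congr_left fun t => ?_
      rw [norm_pow, Real.norm_eq_abs, ← pow_add]
      congr 1
      omega
    have h3 : (fun t : ℝ => t ^ m * r.eval t) =o[𝓝[≠] 0] fun t => t ^ m * (1 : ℝ) :=
      (h1.trans_isBigO h2).mono nhdsWithin_le_nhds
    have h4 : (fun t : ℝ => r.eval t) =o[𝓝[≠] 0] fun _ => (1 : ℝ) := by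
      rw [isLittleO_iff] at h3 ⊢
      intro c hc
      filter_upwards [h3 hc, self_mem_nhdsWithin] with t ht ht0
      have ht0' : 0 < ‖t ^ m‖ := norm_pos_iff.2 (pow_ne_zero _ ht0)
      rw [norm_mul, norm_mul] at ht
      have h5 : ‖t ^ m‖ * ‖r.eval t‖ ≤ ‖t ^ m‖ * (c * ‖(1 : ℝ)‖) := by
        refine ht.trans (le_of_eq ?_)
        ring
      exact le_of_mul_le_mul_left h5 ht0'
    rw [isLittleO_one_iff] at h4
    have h5 : Tendsto (fun t : ℝ => r.eval t) (𝓝[≠] 0) (𝓝 (r.eval 0)) :=
      (r.continuous.tendsto 0).mono_left nhdsWithin_le_nhds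
    exact hr0 (tendsto_nhds_unique h5 h4)
  rw [hr, Polynomial.coeff_X_pow_mul', if_neg (by omega)]

/-- **Uniqueness of Taylor polynomials.** -/
theorem coeff_eq_zero {d : ℕ} {P : MvPolynomial σ ℝ} {x : σ → ℝ}
    (h : PE d (fun _ => 0) x P) {μ : σ →₀ ℕ} (hμ : μ.degree ≤ d) : coeff μ P = 0 := by
  classical
  set k := μ.degree with hk
  suffices hs : homogeneousComponent k P = 0 by
    have h1 := coeff_homogeneousComponent k P μ
    rw [hs, coeff_zero, if_pos rfl] at h1
    exact h1.symm
  refine MvPolynomial.funext fun y => ?_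
  rw [map_zero]
  -- the polynomial on the line through `y`
  set q : Polynomial ℝ := ∑ μ ∈ P.support, Polynomial.monomial μ.degree (eval y (monomial μ (coeff μ P)))
    with hq
  have hqe : ∀ t : ℝ, q.eval t = eval (t • y) P := by
    intro t
    rw [hq, Polynomial.eval_finsetSum]
    conv_rhs => rw [P.as_sum, map_sum]
    refine Finset.sum_congr rfl fun ν _ => ?_
    rw [Polynomial.eval_monomial, eval_smul_monomial, mul_comm]
  have hqo : (fun t : ℝ => q.eval t) =o[𝓝 0] fun t => |t| ^ d := by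
    have h1 : Tendsto (fun t : ℝ => t • y) (𝓝 0) (𝓝 0) := by
      have h2 : Tendsto (fun t : ℝ => t • y) (𝓝 0) (𝓝 ((0 : ℝ) • y)) :=
        (continuous_id.smul continuous_const).tendsto 0
      rwa [zero_smul] at h2
    have h2 : (fun y : σ → ℝ => eval y P) =o[𝓝 0] fun y => ‖y‖ ^ d := by
      have h3 := IsLittleO.neg_left h
      refine h3.congr_left fun y => ?_
      ring
    have h3 := h2.comp_tendsto h1
    have h4 : (fun t : ℝ => ‖t • y‖ ^ d) =O[𝓝 0] fun t => |t| ^ d := by
      refine (IsBigO.of_bound (‖y‖ ^ d) (Eventually.of_forall fun t => ?_))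
      rw [norm_smul, norm_pow, norm_pow, norm_mul, norm_norm, norm_norm, Real.norm_eq_abs,
        Real.norm_eq_abs, abs_abs, mul_pow, mul_comm]
    refine (h3.trans_isBigO h4).congr_left fun t => ?_
    exact (hqe t).symm
  have h1 : q.coeff k = 0 := coeff_eq_zero_of_isLittleO hqo hμ
  rw [hq, Polynomial.finsetSum_coeff] at h1
  rw [homogeneousComponent_apply, map_sum, Finset.sum_filter]
  refine Eq.trans (Finset.sum_congr rfl fun ν _ => ?_) h1
  rw [Polynomial.coeff_monomial]

theorem PE.zero_of_eq {d : ℕ} {f : (σ → ℝ) → ℝ} {x : σ → ℝ} {P Q : MvPolynomial σ ℝ}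
    (h : PE d f x P) (h' : PE d f x Q) {μ : σ →₀ ℕ} (hμ : μ.degree ≤ d) :
    coeff μ P = coeff μ Q := by
  have h1 : PE d (fun _ => 0) x (P - Q) := by
    refine (h.sub h').congr_left fun y => ?_
    show f (x + y) - f (x + y) - _ = 0 - _
    rw [sub_self]
  have h2 := coeff_eq_zero h1 hμ
  rwa [coeff_sub, sub_eq_zero] at h2

/-- The zeros of a nonzero polynomial form a null set. -/
theorem ae_eval_ne_zero [Nonempty σ] {D : MvPolynomial σ ℝ} (hD : D ≠ 0) :
    ∀ᵐ x : σ → ℝ, eval x D ≠ 0 := by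
  have h1 : ∀ᵐ x : σ → ℝ, ∀ N : ℕ, eval x D = 0 → PE N (fun x => eval x D) x 0 := by
    rw [ae_all_iff]
    exact fun N => ae_flat N _ (contDiff_eval D)
  filter_upwards [h1] with x hx h0
  set P : MvPolynomial σ ℝ := aeval (fun j => C (x j) + X j) D with hP
  have h2 : ∀ y, eval (x + y) D = eval y P := by
    intro y
    have h3 : (eval (x + y)) = (eval y).comp
        (aeval (R := ℝ) (fun j => C (x j) + X j : σ → MvPolynomial σ ℝ)).toRingHom := by
      refine MvPolynomial.ringHom_ext (fun r => ?_) (fun j => ?_)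
      · simp
      · simp
    exact congrFun (congrArg DFunLike.coe h3) D
  have h3 : P = 0 := by
    ext μ
    rw [coeff_zero, PE.zero_of_eq (P := P) (Q := 0) (PE.of_eq h2 : PE μ.degree _ x P)
      (hx μ.degree h0) le_rfl, coeff_zero]
  apply hD
  refine MvPolynomial.funext fun z => ?_
  have h4 := h2 (z - x)
  rw [h3, add_sub_cancel] at h4
  rw [h4, map_zero, map_zero]

end Pool.Agent.Y531.Smooth
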