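import Pool.Agent.Y531.Smooth.Jets

/-!
# The coefficients of a matrix function at a general point have full rank
-/

set_option autoImplicit false
set_option linter.unusedSectionVars false
set_option maxHeartbeats 1000000
set_option synthInstance.maxHeartbeats 200000

namespace Pool.Agent.Y531.Smooth

open MvPolynomial Pool.Agent.W942 Pool.Agent.Y531 Pool.Agent.Y531.Mul Pool.Agent.Y531.Hit
open MeasureTheory

section sf
variable {ι R : Type*} [DecidableEq ι] [CommRing R]

/-- The set functions which vanish at all sets which contain `l`. -/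
def noL (R : Type*) [CommRing R] (l : ι) : Subring (SF ι R) where
  carrier := {f | ∀ S, l ∈ S → f S = 0}
  mul_mem' := by
    intro f g hf hg S hS
    rw [SF.mul_def]
    refine Finset.sum_eq_zero fun T hT => ?_
    by_cases h : l ∈ T
    · rw [hf T h, zero_mul]
    · rw [hg (S \ T) (Finset.mem_sdiff.2 ⟨hS, h⟩), mul_zero]
  one_mem' := by
    intro S hS
    rw [SF.one_def, if_neg (Finset.ne_empty_of_mem hS)]
  add_mem' := by
    intro f g hf hg S hS
    rw [SF.add_def, hf S hS, hg S hS, add_zero]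
  zero_mem' := fun S _ => rfl
  neg_mem' := by
    intro f hf S hS
    rw [SF.neg_def, hf S hS, neg_zero]

theorem mem_noL {l : ι} {f : SF ι R} : f ∈ noL R l ↔ ∀ S, l ∈ S → f S = 0 := Iff.rfl

theorem cst_mem_noL (l : ι) (r : R) : (SF.cst r : SF ι R) ∈ noL R l := by
  intro S hS
  rw [SF.cst_apply, if_neg (Finset.ne_empty_of_mem hS)]

theorem fil_mul {f g : SF ι R} {k l : ℕ} (hf : ∀ S : Finset ι, S.card < k → f S = 0)
    (hg : ∀ S : Finset ι, S.card < l → g S = 0) :
    ∀ S : Finset ι, S.card < k + l → (f * g) S = 0 := by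
  intro S hS
  rw [SF.mul_def]
  refine Finset.sum_eq_zero fun T hT => ?_
  rw [Finset.mem_powerset] at hT
  have h1 : (S \ T).card + T.card = S.card := Finset.card_sdiff_add_card_eq_card hT
  by_cases h : T.card < k
  · rw [hf T h, zero_mul]
  · rw [hg (S \ T) (by omega), mul_zero]

theorem fil_pow {f : SF ι R} (hf : ∀ S : Finset ι, S.card < 1 → f S = 0) :
    ∀ (k : ℕ) (S : Finset ι), S.card < k → (f ^ k) S = 0 := by
  intro k
  induction k with
  | zero => intro S hS; exact absurd hS (Nat.not_lt_zero _)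
  | succ k ih => rw [pow_succ]; exact fil_mul ih hf

theorem fil_prod {J : Type*} [DecidableEq J] (s : Finset J) {f : J → SF ι R} {k : J → ℕ}
    (hf : ∀ j ∈ s, ∀ S : Finset ι, S.card < k j → f j S = 0) :
    ∀ S : Finset ι, S.card < ∑ j ∈ s, k j → (∏ j ∈ s, f j) S = 0 := by
  induction s using Finset.induction_on with
  | empty =>
    intro S hS
    rw [Finset.sum_empty] at hS
    exact absurd hS (Nat.not_lt_zero _)
  | insert a s ha ih =>
    rw [Finset.prod_insert ha, Finset.sum_insert ha]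
    exact fil_mul (hf a (Finset.mem_insert_self a s))
      (ih fun j hj => hf j (Finset.mem_insert_of_mem hj))

end sf

variable {a b h n : ℕ} {e : Fin (a + b) ≃ Fin b ⊕ Fin a} {ν : Vtx h e → Fin n} {l₀ : Fin b ⊕ Fin a}

/-- Only the coefficients of degree at most `a + b` matter. -/
theorem nil_eq_zero {P : MvPolynomial (Fin n × Fin n) ℝ}
    (hP : ∀ μ : (Fin n × Fin n) →₀ ℕ, μ.degree ≤ a + b → coeff μ P = 0) :
    nil e ν l₀ P Finset.univ = 0 := by
  classical
  have hcard : Fintype.card (Fin b ⊕ Fin a) = a + b := by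
    rw [Fintype.card_sum, Fintype.card_fin, Fintype.card_fin, add_comm]
  rw [P.as_sum, map_sum, SF.sum_apply]
  refine Finset.sum_eq_zero fun μ hμ => ?_
  have hdeg : a + b < μ.degree := by
    by_contra hcon
    push Not at hcon
    exact (MvPolynomial.mem_support_iff.1 hμ) (hP μ hcon)
  have h1 : (monomial μ (coeff μ P)) =
      C (coeff μ P) * ∏ j ∈ μ.support, (MvPolynomial.X j : MvPolynomial (Fin n × Fin n) ℝ) ^ μ j := by
    rw [MvPolynomial.monomial_eq, Finsupp.prod]
  rw [h1, map_mul, map_prod, nil_C, SF.cst_mul_apply]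
  simp only [map_pow]
  rw [fil_prod (f := fun j => nil e ν l₀ (MvPolynomial.X j) ^ μ j) (k := fun j => μ j) μ.support
    (fun j _ => fil_pow (fun S hS => ?_) (μ j)), mul_zero]
  · rw [Finset.card_univ, hcard]
    exact hdeg
  · have hS0 : S = ∅ := Finset.card_eq_zero.1 (by omega)
    rw [hS0, nil_empty, eval_X]
    exact map_zero _

theorem nil_shift (x : Fin n × Fin n → ℝ) (p : MvPolynomial (Fin n × Fin n) ℝ) :
    nil e ν l₀ (aeval (fun j => C (x j) + MvPolynomial.X j) p) =
      thR e ν l₀ (RingHom.id ℝ) x p := by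
  have h1 : ((nil e ν l₀).toRingHom.comp (aeval (R := ℝ)
      (fun j => C (x j) + MvPolynomial.X j : Fin n × Fin n → MvPolynomial (Fin n × Fin n) ℝ)).toRingHom) =
      thR e ν l₀ (RingHom.id ℝ) x := by
    refine MvPolynomial.ringHom_ext (fun r => ?_) (fun j => ?_)
    · rw [RingHom.comp_apply, thR_C]
      show nil e ν l₀ (aeval _ (C r)) = _
      rw [algHom_C]
      exact nil_C r
    · rw [RingHom.comp_apply, thR_X]
      show nil e ν l₀ (aeval _ (MvPolynomial.X j)) = _
      rw [aeval_X, nil_var]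
  exact congrFun (congrArg DFunLike.coe h1) p

theorem ent_mem_noL (hν : Function.Injective ν) (hd : 2 ≤ a + b) {R : Type*} [CommRing R]
    (u v : Ed a b h → Bool) {p q : Fin n} (hp : p ≠ ν (star hd)) :
    ent R e ν l₀ u v p q ∈ noL R (e ⟨0, by omega⟩) := by
  classical
  rw [ent]
  refine Subring.add_mem _ (cst_mem_noL _ _) ?_
  by_cases hE : Edge e ν p q u v
  · obtain ⟨x, y, rfl, _, _, _⟩ := id hE
    rw [if_pos hE, lb_apply hν]
    intro S hS
    rw [SF.sgl_apply, if_neg]
    rintro rfl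
    rw [Finset.mem_singleton] at hS
    apply hp
    have h1 := e.injective hS
    congr 1
    exact eq_star hd x (by rw [← h1])
  · rw [if_neg hE, sgl_zero]
    exact Subring.zero_mem _

/-- **The top coefficient at the unit matrix.** -/
theorem thR_FX {F A : Type*} [Field F] [CommRing A] (γ : F →+* A) (hν : Function.Injective ν)
    (hd : 2 ≤ a + b) (χ : Equiv.Perm (Fin n) → F) (u v : Ed a b h → Bool) :
    thR e ν l₀ γ (one' A) (FX χ) Finset.univ u v =
      if v = mt u then γ (χ (sig e ν hν u)) else 0 := by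
  classical
  have h0 : thR e ν l₀ γ (one' A) (FX χ) Finset.univ u v =
      SF.pe u v (thR e ν l₀ γ (one' A) (FX χ)) Finset.univ := rfl
  rw [h0, FX_eq χ (ν (star hd)), map_add, map_add, SF.add_def, thR_RR γ hν hd χ u v]
  have h1 : SF.pe u v (thR e ν l₀ γ (one' A) (MvPolynomial.X (ν (star hd), ν (star hd)) *
      PP χ (ν (star hd)))) ∈ noL A (e ⟨0, by omega⟩) := by
    rw [map_mul, map_mul, thR_X, pe_thet_one, ent_self hν hd, one_mul, PP, map_sum, map_sum]
    refine Subring.sum_mem _ fun σ _ => ?_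
    rw [map_mul, map_mul, thR_C, map_prod, map_prod]
    refine Subring.mul_mem _ ?_ (Subring.prod_mem _ fun p hp => ?_)
    · have h2 : SF.pe u v (SF.cst (algebraMap A (FF a b h A) (γ (χ σ)))) =
          (SF.cst (γ (χ σ)) : SF (Fin b ⊕ Fin a) A) := by
        refine SF.ext' fun S => ?_
        rw [SF.pe_apply, SF.cst_apply, SF.cst_apply]
        by_cases hS : S = ∅
        · rw [if_pos hS, if_pos hS]; rfl
        · rw [if_neg hS, if_neg hS]; rfl
      rw [h2]
      exact cst_mem_noL _ _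
    · rw [thR_X, pe_thet_one]
      exact ent_mem_noL hν hd u v (Finset.ne_of_mem_erase hp)
  rw [h1 Finset.univ (Finset.mem_univ _), zero_add]
  by_cases hv : v = mt u
  · rw [if_pos hv, if_pos hv, SF.sgl_apply, if_pos rfl]
  · rw [if_neg hv, if_neg hv]
    rfl

/-- **Full rank at general points.** -/
theorem exists_disc (hν : Function.Injective ν) (hd : 2 ≤ a + b)
    (χ : Equiv.Perm (Fin n) → ℝ) (hχ : ∀ u, χ (sig e ν hν u) ≠ 0) :
    ∃ D : MvPolynomial (Fin n × Fin n) ℝ, D ≠ 0 ∧ ∀ x, eval x D ≠ 0 →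
      (Matrix.of fun u v => thR e ν l₀ (RingHom.id ℝ) x (FX χ) Finset.univ u v).det ≠ 0 := by
  classical
  set M : Matrix (Ed a b h → Bool) (Ed a b h → Bool) (MvPolynomial (Fin n × Fin n) ℝ) :=
    Matrix.of fun u v => thR e ν l₀ C MvPolynomial.X (FX χ) Finset.univ u v with hM
  have h1 : ∀ x : Fin n × Fin n → ℝ, eval x M.det =
      (Matrix.of fun u v => thR e ν l₀ (RingHom.id ℝ) x (FX χ) Finset.univ u v).det := by
    intro x
    rw [RingHom.map_det]
    congr 1
    ext u v
    have h2 := thR_map (e := e) (ν := ν) (l₀ := l₀) (C (σ := Fin n × Fin n) (R := ℝ))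
      MvPolynomial.X (eval x) (FX χ)
    have h3 : (eval x).comp (C (σ := Fin n × Fin n) (R := ℝ)) = RingHom.id ℝ := by
      ext r; simp
    have h4 : (fun j : Fin n × Fin n => eval x (MvPolynomial.X j)) = x := by
      funext j; rw [eval_X]
    rw [h3, h4] at h2
    rw [← h2]
    rfl
  refine ⟨M.det, ?_, fun x hx => by rwa [← h1]⟩
  intro h0
  have h2 := h1 (one' ℝ)
  rw [h0, map_zero] at h2
  refine det_mt_ne_zero _ (fun u v => ?_) h2.symm
  rw [Matrix.of_apply, thR_FX (RingHom.id ℝ) hν hd χ u v]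
  by_cases hv : v = mt u
  · rw [if_pos hv]
    exact iff_of_false (hχ u) (not_not.2 hv)
  · rw [if_neg hv]
    exact iff_of_true rfl hv

/-- **The rank inequality.** -/
theorem smooth_rank {s Δ m L : ℕ} {T : ℕ → ℕ} (hd : 2 ≤ a + b)
    (hT0 : T 0 = 2) (hTm : Monotone T) (hTK : T (2 * Δ + 2) ≤ a + b)
    (hscale : ∀ k, k < 2 * Δ + 2 → ∃ z : ℝ, 0 ≤ z ∧ z ≤ 1 ∧ NumScale a b h (T k) z ∧
      z ^ (T (k + 1)) ≤ ((2:ℝ) ^ (a * h * L))⁻¹)
    (hν : Function.Injective ν) (χ : Equiv.Perm (Fin n) → ℝ) {x : Fin n × Fin n → ℝ}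
    (hx : (Matrix.of fun u v =>
      thR e ν l₀ (RingHom.id ℝ) x (FX χ) Finset.univ u v).det ≠ 0)
    (g : Fin s → GOp (Fin n × Fin n) s m (a + b)) (hg : ∀ t i, Fine (g i) (rounds g t) x)
    (c : Comb (Fin n × Fin n) s)
    (hc : PE (a + b) (fun z => c.val z (rounds g (Δ + 1) z) - eval z (FX χ)) x 0) :
    (2:ℝ) ^ (a * h * L) ≤ (((n * n : ℕ):ℝ) + s + 1) * cost (n * n) s m (a + b) ^ (Δ + 1) := by
  classical
  set ϑ : ℝ := ((2:ℝ) ^ (a * h * L))⁻¹ with hϑ
  have hϑ0 : 0 < ϑ := by positivity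
  have hcard : Fintype.card (Fin b ⊕ Fin a) = a + b := by
    rw [Fintype.card_sum, Fintype.card_fin, Fintype.card_fin, add_comm]
  have h1 := rounds_good (l₀ := l₀) (d := a + b) hν hT0 hTm hϑ0 hscale g hg (Δ + 1) le_rfl
  choose P hP1 hP2 using h1
  have hc1 : 1 ≤ cost (n * n) s m (a + b) := one_le_cost _ _ _ _
  have hT2 : ∀ k, 2 ≤ T k := fun k => by
    have := hTm (Nat.zero_le k)
    omega
  have h2 := c.good (x := x) hν (hT2 (2 * (Δ + 1))) (by positivity) hP2
  have h3 : PE (a + b) (fun z => c.val z (rounds g (Δ + 1) z)) x (c.poly x P) := c.pe hP1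
  -- the Taylor polynomial of the matrix function
  set R : MvPolynomial (Fin n × Fin n) ℝ :=
    aeval (fun j => C (x j) + MvPolynomial.X j) (FX χ) with hR
  have h4 : PE (a + b) (fun z => eval z (FX χ)) x R := by
    have h5 := PE.aeval (d := a + b) (x := x) (f := fun (j : Fin n × Fin n) z => z j)
      (P := fun j => C (x j) + MvPolynomial.X j) (fun j => PE.var j) (FX χ)
    exact h5
  have h5 := h3.sub h4
  have h6 : nil e ν l₀ (c.poly x P - R) Finset.univ = 0 := by
    refine nil_eq_zero fun μ hμ => ?_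
    rw [PE.zero_of_eq h5 hc hμ, coeff_zero]
  have h7 : nil e ν l₀ (c.poly x P) Finset.univ =
      thR e ν l₀ (RingHom.id ℝ) x (FX χ) Finset.univ := by
    rw [map_sub, SF.sub_def, sub_eq_zero] at h6
    rw [h6, hR, nil_shift]
  have hk : T (2 * (Δ + 1)) ≤ (Finset.univ : Finset (Fin b ⊕ Fin a)).card := by
    rw [Finset.card_univ, hcard]
    exact hTK
  have h8 := (h2 Finset.univ).2 hk
  rw [h7] at h8
  have hwt : (bitFrame a b h).wt Finset.univ = 2 ^ (b * (a * h)) := by
    rw [wt_bitFrame]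
    have h4 : lef (Finset.univ : Finset (Fin b ⊕ Fin a)) = b := by
      rw [lef, Finset.preimage_univ, Finset.card_univ, Fintype.card_fin]
    have h5 : rig (Finset.univ : Finset (Fin b ⊕ Fin a)) = a := by
      rw [rig, Finset.preimage_univ, Finset.card_univ, Fintype.card_fin]
    rw [h4, h5]
    have h6 : a * h * b + b * h * a = 2 * (b * (a * h)) := by ring
    rw [h6, pow_mul, Real.sq_sqrt (by norm_num)]
  rw [hwt] at h8
  obtain ⟨ρ, hρ, hρ'⟩ := h8
  -- full rank
  have h9 := Matrix.mul_nonsing_inv _ (isUnit_iff_ne_zero.2 hx)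
  have h10 := hρ.lower (P := Ed a b h → Bool) id id
    (Matrix.of fun u v => thR e ν l₀ (RingHom.id ℝ) x (FX χ) Finset.univ u v)⁻¹
    (fun i j => by
      have h8 := congrFun (congrFun h9 i) j
      rw [Matrix.mul_apply, Matrix.one_apply] at h8
      exact h8)
  rw [Fintype.card_fun, Fintype.card_bool] at h10
  have hcE : Fintype.card (Ed a b h) = b * (a * h) := by
    rw [Fintype.card_prod, Fintype.card_prod, Fintype.card_fin, Fintype.card_fin, Fintype.card_fin]
  rw [hcE] at h10
  have h11 : ((2:ℝ) ^ (b * (a * h))) ≤ ρ := by exact_mod_cast h10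
  have h12 := h11.trans hρ'
  have hpos : (0:ℝ) < 2 ^ (b * (a * h)) := by positivity
  have h13 : (1:ℝ) ≤ (((n * n : ℕ) : ℝ) + s + 1) *
      (cost (n * n) s m (a + b) ^ (Δ + 1) * ϑ) := by
    by_contra hcon
    rw [not_le] at hcon
    nlinarith
  have h14 : (0:ℝ) < 2 ^ (a * h * L) := by positivity
  have h15 : (((n * n : ℕ) : ℝ) + s + 1) * (cost (n * n) s m (a + b) ^ (Δ + 1) * ϑ) =
      ((((n * n : ℕ) : ℝ) + s + 1) * cost (n * n) s m (a + b) ^ (Δ + 1)) /
        2 ^ (a * h * L) := by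
    rw [hϑ]
    field_simp
  rw [h15, le_div_iff₀ h14, one_mul] at h13
  exact h13

end Pool.Agent.Y531.Smooth
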