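import Pool.Agent.Y531.Smooth.Flat
import Pool.Agent.Y531.Smooth.Run
import Pool.Agent.Y531.Mul.Rank

/-!
# The Taylor polynomials of the values of a program have coefficients of small rank
-/

set_option autoImplicit false
set_option linter.unusedSectionVars false
set_option maxHeartbeats 1000000
set_option synthInstance.maxHeartbeats 200000

namespace Pool.Agent.Y531.Smooth

open MvPolynomial Pool.Agent.W942 Pool.Agent.Y531 Pool.Agent.Y531.Mul Pool.Agent.Y531.Hit
open MeasureTheory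

variable {a b h n : ℕ}

section nil
variable (e : Fin (a + b) ≃ Fin b ⊕ Fin a) (ν : Vtx h e → Fin n) (l₀ : Fin b ⊕ Fin a)

/-- The expansion at zero. -/
noncomputable def nil :
    MvPolynomial (Fin n × Fin n) ℝ →ₐ[ℝ] SF (Fin b ⊕ Fin a) (FF a b h ℝ) :=
  { thR e ν l₀ (RingHom.id ℝ) (fun _ => 0) with
    commutes' := fun c => thR_C (RingHom.id ℝ) (fun _ => 0) c }

variable {e ν l₀}

theorem nil_apply (p : MvPolynomial (Fin n × Fin n) ℝ) :
    nil e ν l₀ p = thR e ν l₀ (RingHom.id ℝ) (fun _ => 0) p := rfl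

theorem nil_C (c : ℝ) : nil e ν l₀ (C c) = SF.cst (algebraMap ℝ (FF a b h ℝ) c) :=
  thR_C (RingHom.id ℝ) (fun _ => 0) c

theorem nil_var (x : Fin n × Fin n → ℝ) (j : Fin n × Fin n) :
    nil e ν l₀ (C (x j) + X j) = thet e ν l₀ x j := by
  rw [map_add, nil_C, nil_apply, thR_X, thet, thet, map_zero, map_zero, zero_add]

theorem nil_empty (p : MvPolynomial (Fin n × Fin n) ℝ) :
    nil e ν l₀ p ∅ = algebraMap ℝ (FF a b h ℝ) (eval 0 p) :=
  thR_empty (RingHom.id ℝ) (fun _ => 0) p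

end nil

section comb
variable {σ : Type} [Fintype σ] {s d : ℕ}

/-- The Taylor polynomial of a linear combination. -/
noncomputable def Comb.poly (c : Comb σ s) (x : σ → ℝ) (P : Fin s → MvPolynomial σ ℝ) :
    MvPolynomial σ ℝ :=
  C c.const + ∑ j, C (c.input j) * (C (x j) + X j) + ∑ i, C (c.gate i) * P i

theorem Comb.pe {x : σ → ℝ} {F : (σ → ℝ) → Fin s → ℝ} {P : Fin s → MvPolynomial σ ℝ}
    (hP : ∀ i, PE d (fun z => F z i) x (P i)) (c : Comb σ s) :
    PE d (fun z => c.val z (F z)) x (c.poly x P) := by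
  refine PE.add (PE.add (PE.const _) (PE.sum _ fun j _ => ?_)) (PE.sum _ fun i _ => ?_)
  · exact (PE.var j).const_mul _
  · exact (hP i).const_mul _

end comb

section
variable {s d : ℕ} {e : Fin (a + b) ≃ Fin b ⊕ Fin a} {ν : Vtx h e → Fin n} {l₀ : Fin b ⊕ Fin a}
  {T : ℕ} {X : ℝ}

theorem Comb.good (hν : Function.Injective ν) (hT : 2 ≤ T) (hX : 0 ≤ X)
    {x : Fin n × Fin n → ℝ} {P : Fin s → MvPolynomial (Fin n × Fin n) ℝ}
    (hP : ∀ i, Good (bitFrame a b h) T X (nil e ν l₀ (P i))) (c : Comb (Fin n × Fin n) s) :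
    Good (bitFrame a b h) T ((((n * n : ℕ) : ℝ) + s + 1) * X) (nil e ν l₀ (c.poly x P)) := by
  classical
  have h1 := span_good (Φ := bitFrame a b h) (I := (Fin n × Fin n) ⊕ Fin s)
    (A := MvPolynomial (Fin n × Fin n) ℝ) (F := ℝ) (T := T) (X := X) (by omega) hX
    (g := Sum.elim (fun j => C (x j) + MvPolynomial.X j) P) (p := fun _ => True)
    (Θ := nil e ν l₀) (f := c.poly x P) (by
      rintro (j | i) _
      · show Good _ T X (nil e ν l₀ (C (x j) + MvPolynomial.X j))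
        rw [nil_var]
        exact (thet_good hν x hX j).mono hT le_rfl
      · exact hP i) (by
      rw [Comb.poly]
      refine Submodule.add_mem _ (Submodule.add_mem _ ?_ (Submodule.sum_mem _ fun j _ => ?_))
        (Submodule.sum_mem _ fun i _ => ?_)
      · have h2 : (C c.const : MvPolynomial (Fin n × Fin n) ℝ) = c.const • 1 := by
          rw [MvPolynomial.smul_eq_C_mul, mul_one]
        rw [h2]
        exact Submodule.smul_mem _ _ (Submodule.subset_span (Set.mem_insert _ _))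
      · rw [← MvPolynomial.smul_eq_C_mul]
        exact Submodule.smul_mem _ _ (Submodule.subset_span (Set.mem_insert_of_mem _
          ⟨Sum.inl j, trivial, rfl⟩))
      · rw [← MvPolynomial.smul_eq_C_mul]
        exact Submodule.smul_mem _ _ (Submodule.subset_span (Set.mem_insert_of_mem _
          ⟨Sum.inr i, trivial, rfl⟩)))
  refine h1.mono le_rfl ?_
  rw [Fintype.card_sum, Fintype.card_prod, Fintype.card_fin, Fintype.card_fin]
  push_cast
  nlinarith

/-- The arguments of a product are different from zero or flat. -/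
def Fine {σ : Type} [Fintype σ] {s m d : ℕ} (g : GOp σ s m d) (F : (σ → ℝ) → Fin s → ℝ)
    (x : σ → ℝ) : Prop :=
  ∀ (p : ℕ) (le : p ≤ s) (arg : Fin p → Comb σ s), g = GOp.prod p le arg → ∀ j,
    (arg j).val x (F x) ≠ 0 ∨ PE d (fun z => (arg j).val z (F z)) x 0

/-- **One round.** -/
theorem GOp.step {m : ℕ} (hν : Function.Injective ν) {T' T'' : ℕ} {z z' ϑ : ℝ}
    (hT : 2 ≤ T) (hTT : T ≤ T') (hTT' : T' ≤ T'') (hz0 : 0 ≤ z) (hz1 : z ≤ 1) (hz0' : 0 ≤ z')
    (hz1' : z' ≤ 1) (hϑ : 0 ≤ ϑ) (hX : ϑ ≤ X) (hs : NumScale a b h T z)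
    (hs' : NumScale a b h T' z') (hzT : z ^ T' ≤ ϑ) (hzT' : z' ^ T'' ≤ ϑ)
    {x : Fin n × Fin n → ℝ} {F : (Fin n × Fin n → ℝ) → Fin s → ℝ}
    (hF : ∀ i, ∃ P, PE d (fun z => F z i) x P ∧ Good (bitFrame a b h) T X (nil e ν l₀ P))
    (g : GOp (Fin n × Fin n) s m d) (hg : Fine g F x) :
    ∃ P, PE d (fun z => g.val z (F z)) x P ∧
      Good (bitFrame a b h) T'' (cost (n * n) s m (a + b) * X) (nil e ν l₀ P) := by
  classical
  choose P hP1 hP2 using hF
  have hcard : Fintype.card (Fin b ⊕ Fin a) = a + b := by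
    rw [Fintype.card_sum, Fintype.card_fin, Fintype.card_fin, add_comm]
  have hX0 : 0 ≤ X := hϑ.trans hX
  set N : ℝ := (((n * n : ℕ) : ℝ) + s + 1) with hN
  have hs0 : (0:ℝ) ≤ s := Nat.cast_nonneg s
  have hm0 : (0:ℝ) ≤ m := Nat.cast_nonneg m
  have hN1 : 1 ≤ N := by
    have : (0:ℝ) ≤ ((n * n : ℕ) : ℝ) := Nat.cast_nonneg _
    rw [hN]; linarith
  have hNX : ϑ ≤ N * X := hX.trans (le_mul_of_one_le_left hX0 hN1)
  have hNX0 : 0 ≤ N * X := hϑ.trans hNX
  have hc0 : 0 ≤ cost (n * n) s m (a + b) * X :=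
    mul_nonneg (zero_le_one.trans (one_le_cost _ _ _ _)) hX0
  have h21 : (1:ℝ) ≤ 2 ^ (2 * (a + b) ^ 2) := one_le_pow₀ (by norm_num)
  have hm1 : (1:ℝ) ≤ ((m : ℝ) + 1) ^ (a + b) := one_le_pow₀ (by linarith)
  have hce : cost (n * n) s m (a + b) * X =
      (((s : ℝ) + 1) * 2 ^ (2 * (a + b) ^ 2) * ((m : ℝ) + 1) ^ (a + b)) * (N * X) := by
    rw [cost, hN]; ring
  have hbig : ∀ y : ℝ, y ≤ ((s : ℝ) + 1) * 2 ^ (2 * (a + b) ^ 2) * ((m : ℝ) + 1) ^ (a + b) →
      y * (N * X) ≤ cost (n * n) s m (a + b) * X := fun y hy => by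
    rw [hce]; exact mul_le_mul_of_nonneg_right hy hNX0
  have ht := triv_bitFrame (F := ℝ) a b h
  have hscale := scale_of_num (F := ℝ) hs
  have hscale' := scale_of_num (F := ℝ) hs'
  cases g with
  | prod p le arg =>
    by_cases hflat : ∃ j, PE d (fun z => (arg j).val z (F z)) x 0
    · obtain ⟨j₀, hj₀⟩ := hflat
      refine ⟨0, ?_, ?_⟩
      · have h1 := PE.prod (d := d) (x := x) Finset.univ
          (f := fun j z => (arg j).val z (F z))
          (P := fun j => if j = j₀ then 0 else (arg j).poly x P) (fun j _ => by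
            by_cases hj : j = j₀
            · simp only [if_pos hj]
              rw [hj]
              exact hj₀
            · simp only [if_neg hj]
              exact (arg j).pe hP1)
        have h2 : (∏ j, if j = j₀ then (0 : MvPolynomial (Fin n × Fin n) ℝ)
            else (arg j).poly x P) = 0 :=
          Finset.prod_eq_zero (Finset.mem_univ j₀) (by rw [if_pos rfl])
        rw [h2] at h1
        exact h1
      · rw [map_zero]
        exact Good.zero hc0
    · push Not at hflat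
      have hne : ∀ j, (arg j).val x (F x) ≠ 0 := fun j =>
        (hg p le arg rfl j).resolve_right (hflat j)
      refine ⟨∏ j, (arg j).poly x P, PE.prod _ fun j _ => (arg j).pe hP1, ?_⟩
      rw [map_prod]
      rcases Nat.eq_zero_or_pos p with hp | hp
      · subst hp
        rw [Finset.univ_eq_empty, Finset.prod_empty]
        have h1 := Good.cst (Φ := bitFrame a b h) (T := T'') (X := cost (n * n) s m (a + b) * X)
          (by omega) hc0 (1 : ℝ)
        exact h1
      · have h1 := prod_good ht hz0 hz1 hz0' hz1' hϑ hNX hscale hscale' hzT hzT'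
          (Finset.univ : Finset (Fin p)) ⟨⟨0, hp⟩, Finset.mem_univ _⟩
          (fun j => nil e ν l₀ ((arg j).poly x P)) (fun _ => 1)
          (fun j _ => (arg j).good hν hT hX0 hP2)
          (fun j _ => ⟨(arg j).val x (F x), hne j, by
            rw [nil_empty, ((arg j).pe hP1).apply_zero]⟩)
        simp only [pow_one] at h1
        refine h1.mono le_rfl (hbig _ ?_)
        rw [Finset.card_univ, Fintype.card_fin, hcard]
        have hps : (p : ℝ) ≤ (s : ℝ) + 1 := by
          have : (p : ℝ) ≤ s := by exact_mod_cast le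
          linarith
        calc (p : ℝ) * 2 ^ (2 * (a + b) ^ 2) ≤ ((s : ℝ) + 1) * 2 ^ (2 * (a + b) ^ 2) * 1 := by
              rw [mul_one]; gcongr
          _ ≤ _ := by gcongr
  | fn φ smooth arg =>
    set y₀ : Fin m → ℝ := fun j => (arg j).val x (F x) with hy₀
    obtain ⟨Q, hQ⟩ := exists_PE d φ smooth y₀
    refine ⟨_, hQ.comp (fun j => (arg j).pe hP1) (fun j => rfl), ?_⟩
    have h1 : nil e ν l₀ (aeval (fun j => (arg j).poly x P - C (y₀ j)) Q) =
        aeval (fun j => nil e ν l₀ ((arg j).poly x P))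
          (aeval (fun j => MvPolynomial.X j - C (y₀ j)) Q : MvPolynomial (Fin m) ℝ) := by
      rw [← AlgHom.comp_apply, ← AlgHom.comp_apply]
      congr 1
      refine MvPolynomial.algHom_ext fun j => ?_
      rw [AlgHom.comp_apply, AlgHom.comp_apply, aeval_X, aeval_X, map_sub, map_sub, aeval_X,
        nil_C, algHom_C]
      rfl
    rw [h1]
    have h2 := poly_good ht hz0 hz1 hϑ hNX hscale hzT
      (fun j => nil e ν l₀ ((arg j).poly x P)) (fun j => (arg j).good hν hT hX0 hP2)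
      ((m : ℝ) + 1) (by linarith) (by rw [Fintype.card_fin]; linarith)
      (aeval (fun j => MvPolynomial.X j - C (y₀ j)) Q)
    refine h2.mono hTT' (hbig _ ?_)
    rw [hcard]
    have h3 : (2:ℝ) ^ ((a + b) ^ 2) ≤ 2 ^ (2 * (a + b) ^ 2) :=
      pow_le_pow_right₀ (by norm_num) (by omega)
    calc ((m : ℝ) + 1) ^ (a + b) * 2 ^ ((a + b) ^ 2)
        ≤ ((m : ℝ) + 1) ^ (a + b) * 2 ^ (2 * (a + b) ^ 2) := by gcongr
      _ = 1 * 2 ^ (2 * (a + b) ^ 2) * ((m : ℝ) + 1) ^ (a + b) := by ring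
      _ ≤ _ := by gcongr; linarith

/-- **All rounds.** -/
theorem rounds_good {m Δ : ℕ} (hν : Function.Injective ν) {T : ℕ → ℕ} (hT0 : T 0 = 2)
    (hTm : Monotone T) {ϑ : ℝ} (hϑ0 : 0 < ϑ)
    (hscale : ∀ k, k < 2 * Δ + 2 → ∃ z : ℝ, 0 ≤ z ∧ z ≤ 1 ∧ NumScale a b h (T k) z ∧
      z ^ (T (k + 1)) ≤ ϑ) {x : Fin n × Fin n → ℝ} (g : Fin s → GOp (Fin n × Fin n) s m d)
    (hg : ∀ t i, Fine (g i) (rounds g t) x) : ∀ t, t ≤ Δ + 1 → ∀ i,
    ∃ P, PE d (fun z => rounds g t z i) x P ∧ Good (bitFrame a b h) (T (2 * t))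
      (cost (n * n) s m (a + b) ^ t * ϑ) (nil e ν l₀ P) := by
  intro t
  have hc1 : 1 ≤ cost (n * n) s m (a + b) := one_le_cost _ _ _ _
  have hT2 : ∀ k, 2 ≤ T k := fun k => by
    have := hTm (Nat.zero_le k)
    omega
  induction t with
  | zero =>
    intro _ i
    refine ⟨0, ?_, ?_⟩
    · have h1 := PE.const (d := d) (x := x) 0
      rw [map_zero] at h1
      exact h1
    · rw [map_zero]
      exact Good.zero (by positivity)
  | succ t ih =>
    intro ht i
    obtain ⟨z, hz0, hz1, hzs, hzT⟩ := hscale (2 * t) (by omega)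
    obtain ⟨z', hz0', hz1', hzs', hzT'⟩ := hscale (2 * t + 1) (by omega)
    obtain ⟨P, hP1, hP2⟩ := (g i).step hν (hT2 _) (hTm (Nat.le_succ (2 * t)))
      (hTm (Nat.le_succ (2 * t + 1))) hz0 hz1 hz0' hz1' hϑ0.le
      (X := cost (n * n) s m (a + b) ^ t * ϑ)
      (le_mul_of_one_le_left hϑ0.le (one_le_pow₀ hc1)) hzs hzs' hzT hzT'
      (ih (by omega)) (hg t i)
    refine ⟨P, hP1, ?_⟩
    have h1 : cost (n * n) s m (a + b) ^ (t + 1) * ϑ =
        cost (n * n) s m (a + b) * (cost (n * n) s m (a + b) ^ t * ϑ) := by ring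
    rw [h1]
    exact hP2

end

end Pool.Agent.Y531.Smooth
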