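import Mathlib

/-!
# Programs with differentiable operations

The values computed by a program are real numbers. Each gate is given a countable set of operations,
and at each input any of them may be applied: a product of at most `s` arguments, or a function of
`m` arguments which is defined and `d` times continuously differentiable on an open set. The
arguments are linear combinations of `1`, of the inputs and of gates of smaller depth.
-/

set_option autoImplicit false

namespace Pool.Agent.Y531.Smooth

variable {σ : Type} [Fintype σ] {s m d : ℕ}

/-- A linear combination of `1`, of the inputs and of the gates. -/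
structure Comb (σ : Type) (s : ℕ) where
  /-- the constant -/
  const : ℝ
  /-- the coefficients of the inputs -/
  input : σ → ℝ
  /-- the coefficients of the gates -/
  gate : Fin s → ℝ

/-- The value of a linear combination, if `x` is the input and `v` are the values of the gates. -/
def Comb.val (a : Comb σ s) (x : σ → ℝ) (v : Fin s → ℝ) : ℝ :=
  a.const + ∑ j, a.input j * x j + ∑ i, a.gate i * v i

/-- The operations: a product of at most `s` linear combinations, or a function of `m` linear
combinations which is defined on an open set `D` and has continuous partial derivatives of the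
orders `≤ d` there. -/
inductive Op (σ : Type) (s m d : ℕ) : Type
  | prod (p : ℕ) (le : p ≤ s) (arg : Fin p → Comb σ s) : Op σ s m d
  | fn (D : Set (Fin m → ℝ)) (φ : (Fin m → ℝ) → ℝ) (isOpen : IsOpen D)
      (smooth : ContDiffOn ℝ d φ D) (arg : Fin m → Comb σ s) : Op σ s m d

/-- The operation is defined and its value is `y`. -/
def Op.Gives : Op σ s m d → (σ → ℝ) → (Fin s → ℝ) → ℝ → Prop
  | prod _ _ arg, x, v, y => y = ∏ j, (arg j).val x v
  | fn D φ _ _ arg, x, v, y => (fun j => (arg j).val x v) ∈ D ∧ y = φ fun j => (arg j).val x v

/-- The gate `i` occurs in the arguments of the operation. -/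
def Op.Reads (i : Fin s) : Op σ s m d → Prop
  | prod _ _ arg => ∃ j, (arg j).gate i ≠ 0
  | fn _ _ _ _ arg => ∃ j, (arg j).gate i ≠ 0

/-- A program with `s` gates, of depth at most `Δ`. -/
structure Program (σ : Type) (s Δ m d : ℕ) where
  /-- the operations which may be applied at a gate -/
  ops : Fin s → Set (Op σ s m d)
  countable_ops : ∀ i, (ops i).Countable
  /-- the depth of a gate -/
  depth : Fin s → ℕ
  depth_le : ∀ i, depth i ≤ Δ
  reads : ∀ i, ∀ o ∈ ops i, ∀ i', o.Reads i' → depth i' < depth i
  /-- the linear combinations which may be given out -/
  out : Set (Comb σ s)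
  countable_out : out.Countable

/-- For the input `x` and some choice of the operations the output is `y`. -/
def Program.Outputs {Δ : ℕ} (P : Program σ s Δ m d) (x : σ → ℝ) (y : ℝ) : Prop :=
  ∃ v : Fin s → ℝ, (∀ i, ∃ o ∈ P.ops i, o.Gives x v (v i)) ∧ ∃ a ∈ P.out, y = a.val x v

end Pool.Agent.Y531.Smooth
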