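import Mathlib

/-!
# Taylor polynomials
-/

set_option autoImplicit false
set_option linter.unusedSectionVars false

namespace Pool.Agent.Y531.Smooth

open MvPolynomial Asymptotics Filter Topology

variable {σ : Type} [Fintype σ]

/-- `P` is a Taylor polynomial of order `d` of `f` at `x`. -/
def PE (d : ℕ) (f : (σ → ℝ) → ℝ) (x : σ → ℝ) (P : MvPolynomial σ ℝ) : Prop :=
  (fun y : σ → ℝ => f (x + y) - eval y P) =o[𝓝 0] fun y => ‖y‖ ^ d

variable {d : ℕ} {f g : (σ → ℝ) → ℝ} {x : σ → ℝ} {P Q : MvPolynomial σ ℝ}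

theorem norm_pow_isBigO_one (d : ℕ) :
    (fun y : σ → ℝ => ‖y‖ ^ d) =O[𝓝 0] fun _ => (1 : ℝ) :=
  ((continuous_norm.pow d).tendsto 0).isBigO_one ℝ

theorem eval_isBigO_one (P : MvPolynomial σ ℝ) :
    (fun y : σ → ℝ => eval y P) =O[𝓝 0] fun _ => (1 : ℝ) :=
  ((MvPolynomial.continuous_eval P).tendsto 0).isBigO_one ℝ

theorem PE.isBigO_one (h : PE d f x P) :
    (fun y : σ → ℝ => f (x + y)) =O[𝓝 0] fun _ => (1 : ℝ) := by
  have h1 := (h.isBigO.trans (norm_pow_isBigO_one d)).add (eval_isBigO_one P)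
  refine h1.congr_left fun y => ?_
  ring

theorem PE.apply_zero (h : PE d f x P) : eval 0 P = f x := by
  have h1 : ∀ c : ℝ, 0 < c → ‖f x - eval 0 P‖ ≤ c := by
    intro c hc
    have h2 := (h.bound hc).self_of_nhds
    rw [add_zero] at h2
    refine h2.trans ?_
    rw [norm_zero, norm_pow, norm_zero]
    rcases Nat.eq_zero_or_pos d with h3 | h3
    · rw [h3, pow_zero, mul_one]
    · rw [zero_pow (by omega), mul_zero]; exact hc.le
  have h2 : ‖f x - eval 0 P‖ ≤ 0 := le_of_forall_pos_le_add fun c hc => by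
    rw [zero_add]; exact h1 c hc
  have h3 := norm_le_zero_iff.1 h2
  linarith

theorem PE.of_eq (h : ∀ y, f (x + y) = eval y P) : PE d f x P := by
  refine (isLittleO_zero _ _).congr_left fun y => ?_
  rw [h, sub_self]

theorem PE.const (c : ℝ) : PE d (fun _ : σ → ℝ => c) x (C c) :=
  PE.of_eq fun y => by rw [eval_C]

theorem PE.var (j : σ) : PE d (fun z : σ → ℝ => z j) x (C (x j) + X j) :=
  PE.of_eq fun y => by rw [map_add, eval_C, eval_X]; rfl

theorem PE.add (hf : PE d f x P) (hg : PE d g x Q) : PE d (fun z => f z + g z) x (P + Q) := by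
  refine (IsLittleO.add hf hg).congr_left fun y => ?_
  rw [map_add]
  ring

theorem PE.sub (hf : PE d f x P) (hg : PE d g x Q) : PE d (fun z => f z - g z) x (P - Q) := by
  refine (IsLittleO.sub hf hg).congr_left fun y => ?_
  rw [map_sub]
  ring

theorem PE.mul (hf : PE d f x P) (hg : PE d g x Q) : PE d (fun z => f z * g z) x (P * Q) := by
  have h1 : (fun y : σ → ℝ => (f (x + y) - eval y P) * g (x + y)) =o[𝓝 0] fun y => ‖y‖ ^ d := by
    refine (IsLittleO.mul_isBigO hf hg.isBigO_one).congr_right fun y => ?_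
    rw [mul_one]
  have h2 : (fun y : σ → ℝ => eval y P * (g (x + y) - eval y Q)) =o[𝓝 0] fun y => ‖y‖ ^ d := by
    refine (IsBigO.mul_isLittleO (eval_isBigO_one P) hg).congr_right fun y => ?_
    rw [one_mul]
  refine (h1.add h2).congr_left fun y => ?_
  rw [map_mul]
  ring

theorem PE.const_mul (hf : PE d f x P) (c : ℝ) : PE d (fun z => c * f z) x (C c * P) :=
  (PE.const c).mul hf

theorem PE.sum {ι : Type*} (s : Finset ι) {f : ι → (σ → ℝ) → ℝ} {P : ι → MvPolynomial σ ℝ}
    (h : ∀ i ∈ s, PE d (f i) x (P i)) : PE d (fun z => ∑ i ∈ s, f i z) x (∑ i ∈ s, P i) := by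
  classical
  induction s using Finset.induction_on with
  | empty =>
    simp only [Finset.sum_empty]
    have h1 := PE.const (d := d) (x := x) 0
    rwa [map_zero] at h1
  | insert a s ha ih =>
    simp only [Finset.sum_insert ha]
    exact (h a (Finset.mem_insert_self a s)).add (ih fun i hi => h i (Finset.mem_insert_of_mem hi))

theorem PE.prod {ι : Type*} (s : Finset ι) {f : ι → (σ → ℝ) → ℝ} {P : ι → MvPolynomial σ ℝ}
    (h : ∀ i ∈ s, PE d (f i) x (P i)) : PE d (fun z => ∏ i ∈ s, f i z) x (∏ i ∈ s, P i) := by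
  classical
  induction s using Finset.induction_on with
  | empty =>
    simp only [Finset.prod_empty]
    have h1 := PE.const (d := d) (x := x) 1
    rwa [map_one] at h1
  | insert a s ha ih =>
    simp only [Finset.prod_insert ha]
    exact (h a (Finset.mem_insert_self a s)).mul (ih fun i hi => h i (Finset.mem_insert_of_mem hi))

theorem PE.aeval {J : Type} {f : J → (σ → ℝ) → ℝ} {P : J → MvPolynomial σ ℝ}
    (h : ∀ j, PE d (f j) x (P j)) (Q : MvPolynomial J ℝ) :
    PE d (fun z => eval (fun j => f j z) Q) x (MvPolynomial.aeval P Q) := by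
  induction Q using MvPolynomial.induction_on with
  | C a =>
    simp only [eval_C, algHom_C]
    exact PE.const a
  | add p q hp hq =>
    simp only [map_add]
    exact hp.add hq
  | mul_X p j hp =>
    simp only [map_mul, eval_X, aeval_X]
    exact hp.mul (h j)

theorem contDiff_eval (P : MvPolynomial σ ℝ) {n : WithTop ℕ∞} :
    ContDiff ℝ n fun y : σ → ℝ => eval y P := by
  induction P using MvPolynomial.induction_on with
  | C a =>
    simp only [eval_C]
    exact contDiff_const
  | add p q hp hq =>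
    simp only [map_add]
    exact hp.add hq
  | mul_X p j hp =>
    simp only [map_mul, eval_X]
    exact hp.mul (contDiff_apply ℝ ℝ j)

/-- **Composition.** -/
theorem PE.comp {J : Type} [Fintype J] {φ : (J → ℝ) → ℝ} {y₀ : J → ℝ} {Q : MvPolynomial J ℝ}
    (hφ : PE d φ y₀ Q) {f : J → (σ → ℝ) → ℝ} {P : J → MvPolynomial σ ℝ}
    (h : ∀ j, PE d (f j) x (P j)) (hy : ∀ j, f j x = y₀ j) :
    PE d (fun z => φ fun j => f j z) x (MvPolynomial.aeval (fun j => P j - C (y₀ j)) Q) := by
  have h1 : ∀ j, PE d (fun z => f j z - y₀ j) x (P j - C (y₀ j)) := fun j =>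
    (h j).sub (PE.const (y₀ j))
  have h2 := PE.aeval h1 Q
  set k : (σ → ℝ) → J → ℝ := fun y j => f j (x + y) - y₀ j with hk
  have hkj : ∀ j, (fun y => k y j) =o[𝓝 0] fun _ : σ → ℝ => (1 : ℝ) := by
    intro j
    have h3 : Tendsto (fun y : σ → ℝ => eval y (P j - C (y₀ j))) (𝓝 0) (𝓝 0) := by
      have h4 := (MvPolynomial.continuous_eval (P j - C (y₀ j))).tendsto 0
      rwa [(h1 j).apply_zero, hy, sub_self] at h4
    rcases Nat.eq_zero_or_pos d with h5 | h5
    · have h6 : (fun y : σ → ℝ => (f j (x + y) - y₀ j) - eval y (P j - C (y₀ j))) =o[𝓝 0]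
          fun _ => (1 : ℝ) := by
        refine (h1 j).congr_right fun y => ?_
        rw [h5, pow_zero]
      refine (h6.add ((isLittleO_one_iff ℝ).2 h3)).congr_left fun y => ?_
      rw [hk]
      ring
    · have h6 : (fun y : σ → ℝ => ‖y‖ ^ d) =o[𝓝 0] fun _ => (1 : ℝ) := by
        rw [isLittleO_one_iff]
        have h7 : Tendsto (fun y : σ → ℝ => ‖y‖ ^ d) (𝓝 0) (𝓝 (‖(0 : σ → ℝ)‖ ^ d)) :=
          (continuous_norm.pow d).tendsto (0 : σ → ℝ)
        rwa [norm_zero, zero_pow (by omega)] at h7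
      have h8 := (h1 j).trans h6
      refine (h8.add ((isLittleO_one_iff ℝ).2 h3)).congr_left fun y => ?_
      rw [hk]
      ring
  have hk0 : Tendsto k (𝓝 0) (𝓝 0) := by
    rw [tendsto_pi_nhds]
    intro j
    exact (isLittleO_one_iff ℝ).1 (hkj j)
  have hkO : (fun y => ‖k y‖ ^ d) =O[𝓝 0] fun y : σ → ℝ => ‖y‖ ^ d := by
    rcases Nat.eq_zero_or_pos d with h5 | h5
    · rw [h5]
      simp only [pow_zero]
      exact isBigO_refl _ _
    · refine IsBigO.pow ?_ d
      have h6 : k =O[𝓝 0] fun y : σ → ℝ => ‖y‖ := by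
        rw [isBigO_pi]
        intro j
        have h7 : (fun y : σ → ℝ => ‖y‖ ^ d) =O[𝓝 0] fun y => ‖y‖ := by
          obtain ⟨d', rfl⟩ : ∃ d', d = d' + 1 := ⟨d - 1, by omega⟩
          have h8 := (norm_pow_isBigO_one (σ := σ) d').mul (isBigO_refl (fun y : σ → ℝ => ‖y‖) _)
          refine (h8.congr_left fun y => ?_).congr_right fun y => ?_
          · rw [pow_succ]
          · rw [one_mul]
        have h8 := (h1 j).isBigO.trans h7
        have h9 : (fun y : σ → ℝ => eval y (P j - C (y₀ j))) =O[𝓝 0] fun y => ‖y‖ := by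
          have h10 : DifferentiableAt ℝ (fun y : σ → ℝ => eval y (P j - C (y₀ j))) 0 :=
            (contDiff_eval (n := 1) _).differentiable (by norm_num) 0
          have h11 := h10.isBigO_sub
          refine ((h11.congr_left fun y => ?_).congr_right fun y => ?_).trans
            (isBigO_refl _ _).norm_right
          · rw [(h1 j).apply_zero, hy, sub_self, sub_zero]
          · exact sub_zero y
        refine (h8.add h9).congr_left fun y => ?_
        rw [hk]
        ring
      exact h6.norm_left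
  have h3 : (fun y => φ (y₀ + k y) - eval (k y) Q) =o[𝓝 0] fun y : σ → ℝ => ‖y‖ ^ d :=
    (hφ.comp_tendsto hk0).trans_isBigO hkO
  refine (h3.add h2).congr_left fun y => ?_
  have h4 : (y₀ + k y) = fun j => f j (x + y) := by
    funext j
    rw [Pi.add_apply, hk]
    ring
  rw [h4]
  ring

/-- The polynomial whose radial derivative is the given one. -/
noncomputable def integ (Q : MvPolynomial σ ℝ) : MvPolynomial σ ℝ :=
  ∑ μ ∈ Q.support, monomial μ (coeff μ Q / (μ.degree + 1))

theorem eval_smul_monomial (μ : σ →₀ ℕ) (c s : ℝ) (y : σ → ℝ) :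
    eval (s • y) (monomial μ c) = s ^ μ.degree * eval y (monomial μ c) := by
  rw [eval_monomial, eval_monomial, Finsupp.prod, Finsupp.prod, Finsupp.degree_apply,
    ← Finset.prod_pow_eq_pow_sum]
  simp only [Pi.smul_apply, smul_eq_mul, mul_pow, Finset.prod_mul_distrib]
  ring

theorem hasDerivAt_integ (Q : MvPolynomial σ ℝ) (y : σ → ℝ) (s : ℝ) :
    HasDerivAt (fun s : ℝ => s * eval (s • y) (integ Q)) (eval (s • y) Q) s := by
  have h1 : ∀ s : ℝ, s * eval (s • y) (integ Q) =
      ∑ μ ∈ Q.support, s ^ (μ.degree + 1) * (eval y (monomial μ (coeff μ Q)) / (μ.degree + 1)) := by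
    intro s
    rw [integ, map_sum, Finset.mul_sum]
    refine Finset.sum_congr rfl fun μ _ => ?_
    rw [eval_smul_monomial, eval_monomial, eval_monomial]
    ring
  have h2 : eval (s • y) Q = ∑ μ ∈ Q.support, (((μ.degree + 1 : ℕ) : ℝ) * s ^ μ.degree) *
      (eval y (monomial μ (coeff μ Q)) / (μ.degree + 1)) := by
    conv_lhs => rw [Q.as_sum, map_sum]
    refine Finset.sum_congr rfl fun μ _ => ?_
    rw [eval_smul_monomial]
    have h3 : ((μ.degree : ℝ) + 1) ≠ 0 := by positivity
    push_cast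
    field_simp
  simp only [h1]
  rw [h2]
  refine HasDerivAt.fun_sum fun μ _ => ?_
  have h4 := (hasDerivAt_pow (μ.degree + 1) s).mul_const
    (eval y (monomial μ (coeff μ Q)) / ((μ.degree : ℝ) + 1))
  rw [Nat.add_sub_cancel] at h4
  exact h4

/-- A partial derivative. -/
noncomputable def pd [DecidableEq σ] (j : σ) (f : (σ → ℝ) → ℝ) (z : σ → ℝ) : ℝ :=
  fderiv ℝ f z (Pi.single j 1)

/-- **A function whose partial derivatives have Taylor polynomials.** -/
theorem PE.of_pd [DecidableEq σ] (hf : Differentiable ℝ f) {Q : σ → MvPolynomial σ ℝ}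
    (h : ∀ j, PE d (pd j f) x (Q j)) :
    PE (d + 1) f x (C (f x) + ∑ j, X j * integ (Q j)) := by
  rw [PE, isLittleO_iff]
  intro c hc
  set N : ℝ := (Fintype.card σ : ℝ) + 1 with hN
  have hN0 : 0 < N := by positivity
  have h1 : ∀ᶠ y : σ → ℝ in 𝓝 0, ∀ j, ‖pd j f (x + y) - eval y (Q j)‖ ≤ c / N * ‖‖y‖ ^ d‖ := by
    rw [eventually_all]
    intro j
    exact (h j).bound (by positivity)
  obtain ⟨δ, hδ, hball⟩ := Metric.eventually_nhds_iff.1 h1
  rw [Metric.eventually_nhds_iff]
  refine ⟨δ, hδ, fun y hy => ?_⟩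
  rw [dist_zero_right] at hy
  set r : ℝ → ℝ := fun s => f (x + s • y) - ∑ j, y j * (s * eval (s • y) (integ (Q j))) with hr
  set r' : ℝ → ℝ := fun s => ∑ j, y j * (pd j f (x + s • y) - eval (s • y) (Q j)) with hr'
  have hder : ∀ s, HasDerivAt r (r' s) s := by
    intro s
    have h2 : HasDerivAt (fun s : ℝ => x + s • y) y s := by
      have := (hasDerivAt_id s).smul_const y
      rw [one_smul] at this
      exact this.const_add x
    have h3 : HasDerivAt (fun s : ℝ => f (x + s • y)) (fderiv ℝ f (x + s • y) y) s :=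
      (hf (x + s • y)).hasFDerivAt.comp_hasDerivAt s h2
    have h4 : HasDerivAt (fun s : ℝ => ∑ j, y j * (s * eval (s • y) (integ (Q j))))
        (∑ j, y j * eval (s • y) (Q j)) s :=
      HasDerivAt.fun_sum fun j _ => (hasDerivAt_integ (Q j) y s).const_mul (y j)
    have h5 : fderiv ℝ f (x + s • y) y = ∑ j, y j * pd j f (x + s • y) := by
      have h6 : ∀ L : (σ → ℝ) →L[ℝ] ℝ, L y = ∑ j, y j * L (Pi.single j 1) := by
        intro L
        conv_lhs => rw [pi_eq_sum_univ' y]
        rw [map_sum]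
        exact Finset.sum_congr rfl fun j _ => by rw [map_smul, smul_eq_mul]
      exact h6 _
    have h6 := h3.sub h4
    have h7 : fderiv ℝ f (x + s • y) y - ∑ j, y j * eval (s • y) (Q j) = r' s := by
      rw [h5, hr', ← Finset.sum_sub_distrib]
      exact Finset.sum_congr rfl fun j _ => by ring
    rw [h7] at h6
    exact h6
  have hbound : ∀ s ∈ Set.Ico (0 : ℝ) 1, ‖r' s‖ ≤ c * ‖y‖ ^ (d + 1) := by
    intro s hs
    have hsy : ‖s • y‖ ≤ ‖y‖ := by
      rw [norm_smul, Real.norm_eq_abs, abs_of_nonneg hs.1]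
      exact mul_le_of_le_one_left (norm_nonneg y) hs.2.le
    have h2 := hball (y := s • y) (by rw [dist_zero_right]; exact hsy.trans_lt hy)
    calc ‖r' s‖ ≤ ∑ j, ‖y j * (pd j f (x + s • y) - eval (s • y) (Q j))‖ := norm_sum_le _ _
      _ ≤ ∑ _j : σ, ‖y‖ * (c / N * ‖y‖ ^ d) := by
          refine Finset.sum_le_sum fun j _ => ?_
          rw [norm_mul]
          refine mul_le_mul (norm_le_pi_norm y j) ((h2 j).trans ?_) (norm_nonneg _) (norm_nonneg _)
          rw [norm_pow, norm_norm]
          gcongr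
      _ = (Fintype.card σ : ℝ) / N * (c * ‖y‖ ^ (d + 1)) := by
          rw [Finset.sum_const, Finset.card_univ, nsmul_eq_mul]
          ring
      _ ≤ 1 * (c * ‖y‖ ^ (d + 1)) := by
          refine mul_le_mul_of_nonneg_right ?_ (by positivity)
          rw [div_le_one hN0, hN]
          linarith
      _ = _ := one_mul _
  have hfin := norm_image_sub_le_of_norm_deriv_le_segment_01' (f := r) (f' := r')
    (fun s _ => (hder s).hasDerivWithinAt) hbound
  have h8 : r 1 - r 0 = f (x + y) - eval y (C (f x) + ∑ j, X j * integ (Q j)) := by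
    rw [hr]
    simp only [one_smul, zero_smul, add_zero, one_mul, zero_mul, mul_zero, Finset.sum_const_zero,
      sub_zero, map_add, eval_C, map_sum, map_mul, eval_X]
    ring
  rw [h8] at hfin
  rw [norm_pow, norm_norm]
  exact hfin

theorem contDiff_pd [DecidableEq σ] {f : (σ → ℝ) → ℝ} (hf : ContDiff ℝ (d + 1 : ℕ) f) (j : σ) :
    ContDiff ℝ d (pd j f) := by
  have h1 : ContDiff ℝ d (fderiv ℝ f) := hf.fderiv_right (by norm_cast)
  exact h1.clm_apply contDiff_const

/-- **Taylor polynomials exist.** -/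
theorem exists_PE : ∀ (d : ℕ) (f : (σ → ℝ) → ℝ), ContDiff ℝ d f → ∀ x, ∃ P, PE d f x P := by
  classical
  intro d
  induction d with
  | zero =>
    intro f hf x
    refine ⟨C (f x), ?_⟩
    rw [PE]
    simp only [eval_C, pow_zero]
    rw [isLittleO_one_iff]
    have h1 : Tendsto (fun y : σ → ℝ => f (x + y)) (𝓝 0) (𝓝 (f (x + 0))) :=
      (hf.continuous.comp (continuous_const.add continuous_id)).tendsto 0
    rw [add_zero] at h1
    have h2 := h1.sub_const (f x)
    rwa [sub_self] at h2
  | succ d ih =>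
    intro f hf x
    have h1 := fun j => ih (pd j f) (contDiff_pd hf j) x
    choose Q hQ using h1
    exact ⟨_, PE.of_pd (hf.differentiable (by norm_cast)) hQ⟩

end Pool.Agent.Y531.Smooth
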